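import Pool.Agent.H29.OC.Nmx

/-!
# OC: the row LAM, the common slope is not small
-/

set_option autoImplicit false

namespace Pool.OC

open Finset Real
open Pool.Agent.H49.Ent Pool.Agent.H32.Dense Pool.STK Pool.KAF

namespace LAM

variable {Ω Ω' : Type} [Fintype Ω] [Fintype Ω'] {T : Type}

/-- Total probability. -/
theorem tot {p : Ω → ℝ} (hp : ∀ ω, 0 ≤ p ω) (b : Ω → T) (E : Set Ω) :
    Ex p (fun ω => Pr (cond p b (b ω)) E) = Pr p E := by
  have h1 := Pr_dbl p b {w | w.2 ∈ E}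
  have h2 : Pr (dbl p b) {w | w.2 ∈ E} = Pr p E :=
    (dbl_snd (b := b) hp).law (fun ω => ω ∈ E) True
  rw [← h2, h1]
  rfl

/-- Conditional probabilities of events of the first sample. -/
theorem cond_marg {q : Ω' → ℝ} {p : Ω → ℝ} {pr : Ω' → Ω} (h : Marg q p pr) (b : Ω → T) (z : T)
    (E : Set Ω) : Pr (cond q (fun w => b (pr w)) z) {w | pr w ∈ E} = Pr (cond p b z) E := by
  have h1 : Pr (cond q (fun w => b (pr w)) z) {w | pr w ∈ E} =
      law q (fun w => (pr w ∈ E, b (pr w))) (True, z) / law q (fun w => b (pr w)) z :=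
    law_cond q (fun w => pr w ∈ E) (fun w => b (pr w)) z True
  have h2 : Pr (cond p b z) E = law p (fun w => (w ∈ E, b w)) (True, z) / law p b z :=
    law_cond p (fun w => w ∈ E) b z True
  rw [h1, h2]
  have h3 : law q (fun w => (pr w ∈ E, b (pr w))) (True, z) =
      law p (fun w => (w ∈ E, b w)) (True, z) := h.law (fun w => (w ∈ E, b w)) (True, z)
  rw [h3, h.law b z]

end LAM

open LAM

theorem lam_thm : LAMStmt := by
  intro u ε₁₀ hu hε
  refine ⟨ε₁₀ / (256 / u + 1), by positivity, ?_⟩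
  intro d A n k₅ m Λ hOK hn hk hA hm hm2 hta hfq
  set ε := ε₁₀ / (256 / u + 1) with hεd
  have hε0 : 0 < ε := by positivity
  have hP := hOK.law.nonneg
  have hQ0 : ∀ i w, 0 ≤ d.Qp i w := fun i w => dbl_nonneg hP w
  have hQm : ∀ i, Marg (d.Qp i) d.P (fun w => w.1) := fun i => dbl_fst hP
  -- the bad pairs
  set Bd : Set (d.Om × d.Om) := {w | (2 : ℝ) ^ (-(m (d.L w.1) + k₅)) * |d.ta w| <
    |d.sg w - Λ w.1 * d.ta w|} with hBd
  set B : Set d.Om := {ω | |Λ ω| < (2 : ℝ) ^ (-m (d.L ω) - 2)} with hB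
  set G : Set d.Om := {ω | (2 : ℝ) ^ (-m (d.L ω) - 1) ≤ |Λ ω|} with hG
  set γ : d.Lam → ℝ := fun l => Pr (cond d.P d.L l) G with hγ
  set g : ℕ → d.Lam → ℝ := fun i l => Pr (cond (d.Qp i) (fun w => d.L w.1) l) Bd with hg
  have hkz : ∀ a : ℤ, (2 : ℝ) ^ (-(a + k₅)) ≤ (2 : ℝ) ^ (-a - 4) := fun a => by
    refine zpow_le_zpow_right₀ (by norm_num) ?_
    omega
  -- step 1: many large values
  have s1 : ∀ ω, 0 < d.P ω → m (d.L ω) < 2 * n → (∑ i ∈ range n, g i (d.L ω)) ≤ u / 64 * n →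
      u / 64 ≤ γ (d.L ω) := by
    intro ω hω hmω hgω
    have h1 := hfq ω hω hmω
    unfold Dat.fq at h1
    have h2 : ∀ i ∈ range n, Pr (cond (d.Qp i) (fun w => d.L w.1) (d.L ω))
        {w | (2 : ℝ) ^ (-m (d.L ω)) * |d.ta w| < |d.sg w|} ≤ g i (d.L ω) + γ (d.L ω) := by
      intro i _
      have h3 : γ (d.L ω) = Pr (cond (d.Qp i) (fun w => d.L w.1) (d.L ω)) {w | w.1 ∈ G} :=
        (cond_marg (hQm i) d.L (d.L ω) G).symm
      rw [h3]
      refine le_trans (Pr_mono (cond_nonneg (hQ0 i) _ _) fun w hw hw2 => ?_)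
        (Pr_union_le (cond_nonneg (hQ0 i) _ _) Bd {w | w.1 ∈ G})
      have hL : d.L w.1 = d.L ω := ((cond_pos_iff (hQ0 i) _ _ w).1 hw).2
      by_cases hb : w ∈ Bd
      · exact Or.inl hb
      · right
        rw [hBd, Set.mem_ofPred_eq, not_lt] at hb
        have h4 := hb.trans (mul_le_mul_of_nonneg_right (hkz (m (d.L w.1))) (abs_nonneg _))
        have h5 : (2 : ℝ) ^ (-m (d.L w.1)) * |d.ta w| < |d.sg w| := by
          rw [hL]
          exact hw2
        show (2 : ℝ) ^ (-m (d.L w.1) - 1) ≤ |Λ w.1|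
        by_contra hc
        rw [not_le] at hc
        have h6 : |d.sg w| ≤ |d.sg w - Λ w.1 * d.ta w| + |Λ w.1| * |d.ta w| := by
          rw [← abs_mul]
          have := abs_add_le (d.sg w - Λ w.1 * d.ta w) (Λ w.1 * d.ta w)
          rwa [sub_add_cancel] at this
        have h7 : |Λ w.1| * |d.ta w| ≤ (2 : ℝ) ^ (-m (d.L w.1) - 1) * |d.ta w| :=
          mul_le_mul_of_nonneg_right hc.le (abs_nonneg _)
        have h8 : (2 : ℝ) ^ (-m (d.L w.1) - 1) = 2 ^ (-m (d.L w.1)) / 2 := by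
          rw [zpow_sub₀ (by norm_num)]
          norm_num
        have h9 : (2 : ℝ) ^ (-m (d.L w.1) - 4) = 2 ^ (-m (d.L w.1)) / 16 := by
          rw [zpow_sub₀ (by norm_num)]
          norm_num
        rw [h9] at h4
        rw [h8] at h7
        have h10 : 0 ≤ (2 : ℝ) ^ (-m (d.L w.1)) * |d.ta w| := by positivity
        nlinarith
    have h3 := Finset.sum_le_sum h2
    rw [Finset.sum_add_distrib, Finset.sum_const, card_range, nsmul_eq_mul] at h3
    have hn' : (0 : ℝ) < n := by exact_mod_cast hn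
    by_contra hc
    rw [not_le] at hc
    have h4 : (n : ℝ) * γ (d.L ω) ≤ n * (u / 64) := mul_le_mul_of_nonneg_left hc.le hn'.le
    have h5 : u / 32 * n = u / 64 * n + n * (u / 64) := by ring
    linarith
  -- step 2: pairs at the scale zero
  have s2 : Pr (d.Qp 0) {w | w.1 ∈ B ∧ w.2 ∈ G} ≤ 3 * ε := by
    have h1 := hA 0 (by omega)
    have h2 : Pr (d.Qp 0) {w | (w.2, w.1) ∈ Bd} = Pr (d.Qp 0) Bd := by
      rw [Pr_eq, Pr_eq]
      refine Fintype.sum_equiv (Equiv.prodComm _ _) _ _ fun w => ?_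
      have h3 : d.Qp 0 w = d.Qp 0 ((Equiv.prodComm _ _) w) :=
        dbl_swap d.P (fun ω => (d.L ω, d.Ti 0 ω)) w.1 w.2
      rw [h3]
      rfl
    have h3 : Pr (d.Qp 0) {w | w.1 ∈ B ∧ w.2 ∈ G} ≤
        Pr (d.Qp 0) ((Bd ∪ {w | (w.2, w.1) ∈ Bd}) ∪ {w | d.ta w = 0}) := by
      refine Pr_mono (hQ0 0) fun w hw hw2 => ?_
      by_cases b1 : w ∈ Bd
      · exact Or.inl (Or.inl b1)
      by_cases b2 : (w.2, w.1) ∈ Bd
      · exact Or.inl (Or.inr b2)
      right
      by_contra hta0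
      have hta0' : 0 < |d.ta w| := abs_pos.2 hta0
      have hL : d.L w.1 = d.L w.2 := by
        have h4 : 0 < dbl d.P d.L w := by rw [← Qp_zero d hOK]; exact hw
        exact ((glue_pos_iff hP hP w).1 h4).2.2
      rw [hBd, Set.mem_ofPred_eq, not_lt] at b1 b2
      have c1 := b1.trans (mul_le_mul_of_nonneg_right (hkz (m (d.L w.1))) (abs_nonneg _))
      have c2 := b2.trans (mul_le_mul_of_nonneg_right (hkz (m (d.L w.2))) (abs_nonneg _))
      have e1 : d.ta (w.2, w.1) = -d.ta w := by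
        unfold Dat.ta
        ring
      have e2 : d.sg (w.2, w.1) = -d.sg w := by
        unfold Dat.sg
        ring
      rw [e1, e2, abs_neg] at c2
      have e3 : |-d.sg w - Λ (w.2, w.1).1 * -d.ta w| = |d.sg w - Λ w.2 * d.ta w| := by
        rw [← abs_neg]
        congr 1
        ring
      rw [e3] at c2
      have e4 : (Λ w.2 - Λ w.1) * d.ta w =
          (d.sg w - Λ w.1 * d.ta w) - (d.sg w - Λ w.2 * d.ta w) := by ring
      have e5 : |Λ w.2 - Λ w.1| * |d.ta w| ≤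
          |d.sg w - Λ w.1 * d.ta w| + |d.sg w - Λ w.2 * d.ta w| := by
        rw [← abs_mul, e4]
        exact abs_sub _ _
      have e6 : |Λ w.2| ≤ |Λ w.2 - Λ w.1| + |Λ w.1| := by
        have := abs_add_le (Λ w.2 - Λ w.1) (Λ w.1)
        rwa [sub_add_cancel] at this
      have e7 : |Λ w.1| < (2 : ℝ) ^ (-m (d.L w.1) - 2) := hw2.1
      have e8 : (2 : ℝ) ^ (-m (d.L w.2) - 1) ≤ |Λ w.2| := hw2.2
      rw [← hL] at e8 c2
      have h8 : (2 : ℝ) ^ (-m (d.L w.1) - 1) = 2 ^ (-m (d.L w.1)) / 2 := by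
        rw [zpow_sub₀ (by norm_num)]
        norm_num
      have h8' : (2 : ℝ) ^ (-m (d.L w.1) - 2) = 2 ^ (-m (d.L w.1)) / 4 := by
        rw [zpow_sub₀ (by norm_num)]
        norm_num
      have h9 : (2 : ℝ) ^ (-m (d.L w.1) - 4) = 2 ^ (-m (d.L w.1)) / 16 := by
        rw [zpow_sub₀ (by norm_num)]
        norm_num
      rw [h9] at c1 c2
      rw [h8] at e8
      rw [h8'] at e7
      have h10 : 0 < (2 : ℝ) ^ (-m (d.L w.1)) := by positivity
      have h11 : 2 ^ (-m (d.L w.1)) / 4 < |Λ w.2 - Λ w.1| := by linarith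
      have h12 := mul_lt_mul_of_pos_right h11 hta0'
      have h13 : 0 < (2 : ℝ) ^ (-m (d.L w.1)) * |d.ta w| := by positivity
      nlinarith
    have h4 := Pr_union_le (hQ0 0) (Bd ∪ {w | (w.2, w.1) ∈ Bd}) {w | d.ta w = 0}
    have h5 := Pr_union_le (hQ0 0) Bd {w | (w.2, w.1) ∈ Bd}
    have h1' : Pr (d.Qp 0) Bd ≤ ε := h1
    linarith
  -- step 3: the lines with many bad pairs
  have s3 : Pr d.P {ω | u / 64 * n < ∑ i ∈ range n, g i (d.L ω)} ≤ 64 / u * ε := by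
    have hn' : (0 : ℝ) < n := by exact_mod_cast hn
    refine Pool.KX.AVG.markov hP (fun ω => ∑ i ∈ range n, g i (d.L ω))
      (fun ω _ => Finset.sum_nonneg fun i _ => Pr_nonneg (cond_nonneg (hQ0 i) _ _) _)
      (u / 64 * n) (64 / u * ε) (by positivity) ?_
    have h1 : ∑ ω, d.P ω * ∑ i ∈ range n, g i (d.L ω) =
        ∑ i ∈ range n, Ex d.P (fun ω => g i (d.L ω)) := by
      unfold Ex
      rw [Finset.sum_comm]
      exact Finset.sum_congr rfl fun ω _ => Finset.mul_sum _ _ _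
    rw [h1]
    have h2 : ∀ i ∈ range n, Ex d.P (fun ω => g i (d.L ω)) ≤ ε := by
      intro i hi
      rw [← (hQm i).ex (fun ω => g i (d.L ω))]
      have h3 := tot (hQ0 i) (fun w => d.L w.1) Bd
      have h4 : Ex (d.Qp i) (fun w => g i (d.L w.1)) = Pr (d.Qp i) Bd := h3
      rw [h4]
      exact hA i (mem_range.1 hi)
    have h3 := Finset.sum_le_sum h2
    rw [Finset.sum_const, card_range, nsmul_eq_mul] at h3
    have h4 : u / 64 * n * (64 / u * ε) = n * ε := by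
      field_simp
    linarith
  -- step 4: small values on good lines
  have s4 : u / 64 * Pr d.P (B ∩ {ω | u / 64 ≤ γ (d.L ω)}) ≤ 3 * ε := by
    refine le_trans ?_ s2
    rw [Qp_zero d hOK, Pr_dbl, Pr_eq, Finset.mul_sum]
    classical
    unfold Ex
    refine Finset.sum_le_sum fun ω _ => ?_
    by_cases h : ω ∈ B ∩ {ω | u / 64 ≤ γ (d.L ω)}
    · rw [if_pos h]
      have h1 : {v | (ω, v) ∈ {w : d.Om × d.Om | w.1 ∈ B ∧ w.2 ∈ G}} = G := by
        ext v
        constructor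
        · intro hv
          exact hv.2
        · intro hv
          exact ⟨h.1, hv⟩
      show u / 64 * d.P ω ≤ d.P ω * Pr (cond d.P d.L (d.L ω))
        {v | (ω, v) ∈ {w : d.Om × d.Om | w.1 ∈ B ∧ w.2 ∈ G}}
      rw [h1, mul_comm]
      exact mul_le_mul_of_nonneg_left h.2 (hP ω)
    · rw [if_neg h, mul_zero]
      exact mul_nonneg (hP ω) (Pr_nonneg (cond_nonneg hP _ _) _)
  -- conclusion
  have s5 : Pr d.P B ≤ Pr d.P (({ω | m (d.L ω) = 2 * n} ∪
      {ω | u / 64 * n < ∑ i ∈ range n, g i (d.L ω)}) ∪ (B ∩ {ω | u / 64 ≤ γ (d.L ω)})) := by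
    refine Pr_mono hP fun ω hω hB' => ?_
    by_cases h1 : m (d.L ω) = 2 * n
    · exact Or.inl (Or.inl h1)
    by_cases h2 : u / 64 * n < ∑ i ∈ range n, g i (d.L ω)
    · exact Or.inl (Or.inr h2)
    · exact Or.inr ⟨hB', s1 ω hω (lt_of_le_of_ne (hm2 _) h1) (not_lt.1 h2)⟩
  have s6 := Pr_union_le hP ({ω | m (d.L ω) = 2 * n} ∪
      {ω | u / 64 * n < ∑ i ∈ range n, g i (d.L ω)}) (B ∩ {ω | u / 64 ≤ γ (d.L ω)})
  have s7 := Pr_union_le hP {ω | m (d.L ω) = 2 * n}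
      {ω | u / 64 * n < ∑ i ∈ range n, g i (d.L ω)}
  have s8 : Pr d.P (B ∩ {ω | u / 64 ≤ γ (d.L ω)}) ≤ 192 / u * ε := by
    have h1 : Pr d.P (B ∩ {ω | u / 64 ≤ γ (d.L ω)}) =
        64 / u * (u / 64 * Pr d.P (B ∩ {ω | u / 64 ≤ γ (d.L ω)})) := by
      field_simp
    rw [h1]
    calc 64 / u * (u / 64 * Pr d.P (B ∩ {ω | u / 64 ≤ γ (d.L ω)})) ≤ 64 / u * (3 * ε) :=
          mul_le_mul_of_nonneg_left s4 (by positivity)
      _ = 192 / u * ε := by ring
  have s9 : ε₁₀ = ε + 64 / u * ε + 192 / u * ε := by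
    have h1 : (256 / u + 1) * ε = ε₁₀ := by
      rw [hεd]
      field_simp
    rw [← h1]
    ring
  rw [s9]
  linarith

end Pool.OC
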