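import Mathlib

/-!
# Combinatorics of scales (Theorem OC, 3.4)

A set `J` of positive density has many self-overlaps `J ∩ (J - d)`. The graph on the good scales
with edges given by such differences `d` is connected up to few scales, with small diameter.
-/

set_option autoImplicit false

namespace Pool.OC

open Finset

/-! ### Overlaps of translates -/

theorem sum_ind (X Y : ℕ) (J : Finset ℕ) (hJ : ∀ j ∈ J, j < X) (a : ℕ) (ha : a < Y) :
    ∑ x ∈ range (X + Y), (if a ≤ x ∧ x - a ∈ J then (1 : ℝ) else 0) = J.card := by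
  rw [← Finset.sum_filter, Finset.sum_const, nsmul_eq_mul, mul_one]
  congr 1
  have : (range (X + Y)).filter (fun x => a ≤ x ∧ x - a ∈ J) = J.image (fun j => j + a) := by
    ext x
    rw [mem_filter, mem_image, mem_range]
    constructor
    · rintro ⟨_, h1, h2⟩
      exact ⟨x - a, h2, by omega⟩
    · rintro ⟨j, hj, rfl⟩
      have := hJ j hj
      exact ⟨by omega, by omega, by rwa [Nat.add_sub_cancel]⟩
  rw [this, card_image_of_injective _ (add_left_injective a)]

theorem sum_ind2 (X Y : ℕ) (J : Finset ℕ) (a b : ℕ) (hab : a ≤ b) :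
    ∑ x ∈ range (X + Y), (if a ≤ x ∧ x - a ∈ J then (1 : ℝ) else 0) *
      (if b ≤ x ∧ x - b ∈ J then (1 : ℝ) else 0) ≤
      (J.filter (fun j => j + (b - a) ∈ J)).card := by
  have h1 : ∀ x, (if a ≤ x ∧ x - a ∈ J then (1 : ℝ) else 0) *
      (if b ≤ x ∧ x - b ∈ J then (1 : ℝ) else 0) =
      if (a ≤ x ∧ x - a ∈ J) ∧ (b ≤ x ∧ x - b ∈ J) then (1 : ℝ) else 0 := by
    intro x
    by_cases h1 : a ≤ x ∧ x - a ∈ J <;> by_cases h2 : b ≤ x ∧ x - b ∈ J <;> simp [h1, h2]
  simp only [h1]
  rw [← Finset.sum_filter, Finset.sum_const, nsmul_eq_mul, mul_one]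
  norm_cast
  refine (card_le_card ?_).trans (card_image_le (s := J.filter (fun j => j + (b - a) ∈ J))
    (f := fun j => j + b))
  intro x hx
  rw [mem_filter, mem_range] at hx
  obtain ⟨_, ⟨h2, h3⟩, h4, h5⟩ := hx
  rw [mem_image]
  refine ⟨x - b, mem_filter.2 ⟨h5, ?_⟩, by omega⟩
  have : x - b + (b - a) = x - a := by omega
  rwa [this]

/-- **(G1)** Among `2 / u` translates of a set of density `u` two have a large intersection. -/
theorem overlap (X Y : ℕ) (J : Finset ℕ) (hJ : ∀ j ∈ J, j < X) (u : ℝ) (hu : 0 < u)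
    (hX : 0 < X) (hJu : u * X ≤ J.card) (hY : 4 * Y ≤ X) (A : Finset ℕ) (hA : ∀ a ∈ A, a < Y)
    (hn : 2 / u ≤ A.card) :
    ∃ a ∈ A, ∃ b ∈ A, a < b ∧ u ^ 2 * X / 4 ≤ (J.filter (fun j => j + (b - a) ∈ J)).card := by
  by_contra hcon
  push Not at hcon
  set n : ℝ := (A.card : ℝ) with hn'
  set c : ℝ := (J.card : ℝ) with hc
  have hXr : (0 : ℝ) < X := by exact_mod_cast hX
  have hc0 : 0 < c := lt_of_lt_of_le (by positivity) hJu
  have hn0 : 0 < n := lt_of_lt_of_le (by positivity) hn
  let g : ℕ → ℕ → ℝ := fun a x => if a ≤ x ∧ x - a ∈ J then (1 : ℝ) else 0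
  have e1 : ∑ x ∈ range (X + Y), ∑ a ∈ A, g a x = n * c := by
    rw [Finset.sum_comm, Finset.sum_congr rfl fun a ha => sum_ind X Y J hJ a (hA a ha),
      Finset.sum_const, nsmul_eq_mul]
  have e2 : ∑ x ∈ range (X + Y), (∑ a ∈ A, g a x) ^ 2 ≤ n * c + n ^ 2 * (u ^ 2 * X / 4) := by
    have h1 : ∀ x, (∑ a ∈ A, g a x) ^ 2 = ∑ a ∈ A, ∑ b ∈ A, g a x * g b x := by
      intro x
      rw [sq, Finset.sum_mul_sum]
    simp only [h1]
    rw [Finset.sum_comm]
    have h2 : ∀ a ∈ A, ∑ x ∈ range (X + Y), ∑ b ∈ A, g a x * g b x ≤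
        c + n * (u ^ 2 * X / 4) := by
      intro a ha
      rw [Finset.sum_comm]
      have h3 : ∀ b ∈ A, ∑ x ∈ range (X + Y), g a x * g b x ≤
          (if b = a then c else 0) + u ^ 2 * X / 4 := by
        intro b hb
        rcases lt_trichotomy a b with h | h | h
        · have h4 := sum_ind2 X Y J a b h.le
          have h5 := hcon a ha b hb h
          rw [if_neg (by omega)]
          have h6 : ∑ x ∈ range (X + Y), g a x * g b x ≤ _ := h4
          linarith only [h4, h5]
        · subst h
          have h4 : ∀ x, g a x * g a x = g a x := by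
            intro x
            simp only [g]
            split_ifs <;> simp
          rw [if_pos rfl]
          simp only [h4]
          have h5 : ∑ x ∈ range (X + Y), g a x = c := sum_ind X Y J hJ a (hA a ha)
          rw [h5]
          have : 0 ≤ u ^ 2 * X / 4 := by positivity
          linarith only [this]
        · have h4 := sum_ind2 X Y J b a h.le
          have h5 := hcon b hb a ha h
          rw [if_neg (by omega)]
          have h6 : ∑ x ∈ range (X + Y), g b x * g a x ≤ _ := h4
          have h7 : ∑ x ∈ range (X + Y), g a x * g b x = ∑ x ∈ range (X + Y), g b x * g a x :=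
            Finset.sum_congr rfl fun x _ => mul_comm _ _
          rw [h7]
          linarith only [h4, h5]
      refine (Finset.sum_le_sum h3).trans ?_
      rw [Finset.sum_add_distrib, Finset.sum_const, nsmul_eq_mul, Finset.sum_ite_eq' A a,
        if_pos ha]
    refine (Finset.sum_le_sum h2).trans ?_
    rw [Finset.sum_const, nsmul_eq_mul]
    exact le_of_eq (by ring)
  have e3 : (∑ x ∈ range (X + Y), ∑ a ∈ A, g a x) ^ 2 ≤
      (X + Y : ℕ) * ∑ x ∈ range (X + Y), (∑ a ∈ A, g a x) ^ 2 := by
    have := sq_sum_le_card_mul_sum_sq (s := range (X + Y)) (f := fun x => ∑ a ∈ A, g a x)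
    rwa [card_range] at this
  rw [e1] at e3
  have hYr : (Y : ℝ) ≤ X / 4 := by
    have : (4 * Y : ℝ) ≤ X := by exact_mod_cast hY
    linarith only [this]
  have e4 : (n * c) ^ 2 ≤ (5 / 4 * X) * (n * c + n ^ 2 * (u ^ 2 * X / 4)) := by
    refine e3.trans ?_
    push_cast
    refine mul_le_mul (by linarith only [hYr]) e2 ?_ (by positivity)
    exact Finset.sum_nonneg fun x _ => sq_nonneg _
  -- divide by n
  have e5 : n * c ^ 2 ≤ (5 / 4 * X) * (c + n * (u ^ 2 * X / 4)) := by
    have : n * (n * c ^ 2) ≤ n * ((5 / 4 * X) * (c + n * (u ^ 2 * X / 4))) := by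
      calc n * (n * c ^ 2) = (n * c) ^ 2 := by ring
        _ ≤ _ := e4
        _ = _ := by ring
    exact le_of_mul_le_mul_left this hn0
  have e6 : u ^ 2 * X ^ 2 ≤ c ^ 2 := by
    have : (u * X) ^ 2 ≤ c ^ 2 := by
      apply pow_le_pow_left₀ (by positivity) hJu
    calc u ^ 2 * X ^ 2 = (u * X) ^ 2 := by ring
      _ ≤ _ := this
  have e7 : 2 * X ≤ n * c := by
    have h1 : 2 ≤ n * u := by
      rw [div_le_iff₀ hu] at hn
      exact hn
    calc 2 * (X : ℝ) ≤ (n * u) * X := by
          apply mul_le_mul_of_nonneg_right h1 hXr.le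
      _ = n * (u * X) := by ring
      _ ≤ n * c := by apply mul_le_mul_of_nonneg_left hJu hn0.le
  -- n c^2 (1 - 5/16) ≤ 5/4 X c ≤ 5/8 n c^2
  have e8 : (5 / 4 * X) * (n * (u ^ 2 * X / 4)) ≤ 5 / 16 * (n * c ^ 2) := by
    calc (5 / 4 * X) * (n * (u ^ 2 * X / 4)) = 5 / 16 * (n * (u ^ 2 * X ^ 2)) := by ring
      _ ≤ _ := by
        apply mul_le_mul_of_nonneg_left _ (by norm_num)
        exact mul_le_mul_of_nonneg_left e6 hn0.le
  have e9 : (5 / 4 * X) * c ≤ 5 / 8 * (n * c ^ 2) := by
    calc (5 / 4 * X) * c = 5 / 8 * ((2 * X) * c) := by ring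
      _ ≤ 5 / 8 * ((n * c) * c) := by
        apply mul_le_mul_of_nonneg_left _ (by norm_num)
        exact mul_le_mul_of_nonneg_right e7 hc0.le
      _ = _ := by ring
  have e10 : 0 < n * c ^ 2 := by positivity
  nlinarith only [e5, e8, e9, e10, e5, e8, e9, e10]

/-! ### Connectedness -/

/-- The start: a point from which the bad points have small density. -/
theorem exists_start (n K : ℕ) (B : Finset ℕ) : ∃ x₀ ≤ n, x₀ ≤ K * B.card ∧
    ∀ z, x₀ ≤ z → z < n → K * (B.filter (fun i => x₀ ≤ i ∧ i ≤ z)).card < z + 1 - x₀ := by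
  classical
  obtain ⟨x₀, h0⟩ : ∃ x₀, x₀ = Nat.findGreatest (fun x => x ≤ K * (B.filter (· < x)).card) n :=
    ⟨_, rfl⟩
  have h1 : x₀ ≤ n := by rw [h0]; exact Nat.findGreatest_le _
  have h2 : x₀ ≤ K * (B.filter (· < x₀)).card := by
    rw [h0]
    exact Nat.findGreatest_spec (P := fun x => x ≤ K * (B.filter (· < x)).card) (Nat.zero_le _)
      (Nat.zero_le _)
  refine ⟨x₀, h1, h2.trans (Nat.mul_le_mul_left _ (card_le_card (filter_subset _ _))), ?_⟩
  intro z hz hzn
  have h3 : ¬ (z + 1 ≤ K * (B.filter (· < z + 1)).card) := by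
    intro h
    have := Nat.le_findGreatest (P := fun x => x ≤ K * (B.filter (· < x)).card)
      (show z + 1 ≤ n by omega) h
    omega
  have h4 : (B.filter (· < z + 1)).card = (B.filter (· < x₀)).card +
      (B.filter (fun i => x₀ ≤ i ∧ i ≤ z)).card := by
    rw [← card_union_of_disjoint]
    · congr 1
      ext i
      simp only [mem_filter, mem_union]
      constructor
      · rintro ⟨h, h'⟩
        by_cases h'' : i < x₀
        · exact Or.inl ⟨h, h''⟩
        · exact Or.inr ⟨h, by omega, by omega⟩
      · rintro (⟨h, h'⟩ | ⟨h, h', h''⟩)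
        · exact ⟨h, by omega⟩
        · exact ⟨h, by omega⟩
    · rw [Finset.disjoint_left]
      intro i hi hi'
      rw [mem_filter] at hi hi'
      omega
  rw [h4, Nat.mul_add] at h3
  omega

/-- The graph on the good scales. -/
def gr (n : ℕ) (B : Finset ℕ) (D : ℕ → Prop) : SimpleGraph ℕ where
  Adj i j := i ≠ j ∧ i < n ∧ j < n ∧ i ∉ B ∧ j ∉ B ∧ (D (i - j + (j - i)))
  symm := ⟨fun i j h => ⟨h.1.symm, h.2.2.1, h.2.1, h.2.2.2.2.1, h.2.2.2.1, by
    rw [add_comm]; exact h.2.2.2.2.2⟩⟩
  loopless := ⟨fun i h => h.1 rfl⟩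

theorem reach (n N₀ : ℕ) (hN : 1 ≤ N₀) (B : Finset ℕ) (D : ℕ → Prop) (h1 : D 1)
    (hD : ∀ A : Finset ℕ, (∀ a ∈ A, a < n) → N₀ < A.card → ∃ a ∈ A, ∃ b ∈ A, a < b ∧ D (b - a))
    (x₀ : ℕ) (hx : ∀ z, x₀ ≤ z → z < n →
      4 * N₀ ^ 2 * (B.filter (fun i => x₀ ≤ i ∧ i ≤ z)).card < z + 1 - x₀) :
    ∀ z, x₀ ≤ z → z < n → z ∉ B → (gr n B D).Reachable x₀ z := by
  classical
  intro z
  induction z using Nat.strong_induction_on with
  | _ z ih =>
    intro hz hzn hzB
    rcases Nat.eq_or_lt_of_le hz with h0 | hlt
    · rw [← h0]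
    · have hb := hx z hz hzn
      by_cases hsmall : z < x₀ + N₀
      · -- all points are good
        have h2 : (B.filter (fun i => x₀ ≤ i ∧ i ≤ z)).card = 0 := by
          by_contra h
          have h3 : 1 ≤ (B.filter (fun i => x₀ ≤ i ∧ i ≤ z)).card := Nat.one_le_iff_ne_zero.2 h
          have h4 : 4 * N₀ ^ 2 * 1 ≤ 4 * N₀ ^ 2 * (B.filter (fun i => x₀ ≤ i ∧ i ≤ z)).card :=
            Nat.mul_le_mul_left _ h3
          have h5 : N₀ ≤ N₀ ^ 2 := by nlinarith only [hN]
          omega
        have h3 : z - 1 ∉ B := by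
          intro h
          rw [card_eq_zero] at h2
          have : z - 1 ∈ B.filter (fun i => x₀ ≤ i ∧ i ≤ z) :=
            mem_filter.2 ⟨h, by omega, by omega⟩
          rw [h2] at this
          exact absurd this (notMem_empty _)
        have h4 := ih (z - 1) (by omega) (by omega) (by omega) h3
        refine h4.trans (SimpleGraph.Adj.reachable ?_)
        refine ⟨by omega, by omega, hzn, h3, hzB, ?_⟩
        have : z - 1 - z + (z - (z - 1)) = 1 := by omega
        rw [this]
        exact h1
      · by_contra hnr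
        have hk : ∀ d, 1 ≤ d → d ≤ (z - x₀) / N₀ → ∃ k, 1 ≤ k ∧ k ≤ N₀ ∧ D (k * d) := by
          intro d hd1 hd2
          have hd3 : N₀ * d ≤ z - x₀ :=
            (Nat.mul_le_mul_left _ hd2).trans (Nat.mul_div_le _ _)
          have hinj : Function.Injective (fun k : ℕ => z - N₀ * d + k * d) := by
            intro a b h
            have h' : a * d = b * d := by
              have : z - N₀ * d + a * d = z - N₀ * d + b * d := h
              omega
            exact Nat.eq_of_mul_eq_mul_right (by omega) h'
          obtain ⟨a, ha, b, hb', hab, hD'⟩ := hD ((range (N₀ + 1)).image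
            (fun k => z - N₀ * d + k * d)) (by
              intro a ha
              obtain ⟨k, hk, rfl⟩ := mem_image.1 ha
              rw [mem_range] at hk
              have : k * d ≤ N₀ * d := Nat.mul_le_mul_right _ (by omega)
              omega) (by
              rw [card_image_of_injective _ hinj, card_range]
              omega)
          obtain ⟨k, hk, rfl⟩ := mem_image.1 ha
          obtain ⟨k', hk', rfl⟩ := mem_image.1 hb'
          rw [mem_range] at hk hk'
          have hkk : k < k' := by
            by_contra h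
            have : k' * d ≤ k * d := Nat.mul_le_mul_right _ (by omega)
            omega
          refine ⟨k' - k, by omega, by omega, ?_⟩
          have : z - N₀ * d + k' * d - (z - N₀ * d + k * d) = (k' - k) * d := by
            rw [Nat.sub_mul]
            omega
          rwa [this] at hD'
        choose! k hk1 hk2 hk3 using hk
        have hbad : ∀ d ∈ Icc 1 ((z - x₀) / N₀), z - k d * d ∈
            B.filter (fun i => x₀ ≤ i ∧ i ≤ z) := by
          intro d hd
          rw [mem_Icc] at hd
          have hd3 : N₀ * d ≤ z - x₀ :=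
            (Nat.mul_le_mul_left _ hd.2).trans (Nat.mul_div_le _ _)
          have hkd : k d * d ≤ N₀ * d := Nat.mul_le_mul_right _ (hk2 d hd.1 hd.2)
          have hkd1 : 1 * 1 ≤ k d * d := Nat.mul_le_mul (hk1 d hd.1 hd.2) hd.1
          rw [mem_filter]
          refine ⟨?_, by omega, by omega⟩
          by_contra hB
          apply hnr
          refine (ih (z - k d * d) (by omega) (by omega) (by omega) hB).trans
            (SimpleGraph.Adj.reachable ?_)
          refine ⟨by omega, by omega, hzn, hB, hzB, ?_⟩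
          have : z - k d * d - z + (z - (z - k d * d)) = k d * d := by omega
          rw [this]
          exact hk3 d hd.1 hd.2
        have hcard : (Icc 1 ((z - x₀) / N₀)).card ≤
            N₀ * (B.filter (fun i => x₀ ≤ i ∧ i ≤ z)).card := by
          have h5 := card_le_mul_card_image_of_maps_to (f := fun d => z - k d * d)
            (s := Icc 1 ((z - x₀) / N₀)) (t := B.filter (fun i => x₀ ≤ i ∧ i ≤ z)) hbad N₀ (by
              intro b hb'
              -- the fibre injects into the values of k
              have h6 : ((Icc 1 ((z - x₀) / N₀)).filter (fun d => z - k d * d = b)).card ≤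
                  (Icc 1 N₀).card := by
                apply card_le_card_of_injOn k
                · intro d hd
                  have hd' := mem_filter.1 hd
                  have hd2 := mem_Icc.1 hd'.1
                  exact mem_Icc.2 ⟨hk1 d hd2.1 hd2.2, hk2 d hd2.1 hd2.2⟩
                · intro d hd d' hd' he
                  have a1 := mem_filter.1 hd
                  have a2 := mem_Icc.1 a1.1
                  have a3 := mem_filter.1 hd'
                  have a4 := mem_Icc.1 a3.1
                  have b1 : N₀ * d ≤ z - x₀ :=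
                    (Nat.mul_le_mul_left _ a2.2).trans (Nat.mul_div_le _ _)
                  have b2 : N₀ * d' ≤ z - x₀ :=
                    (Nat.mul_le_mul_left _ a4.2).trans (Nat.mul_div_le _ _)
                  have c1 : k d * d ≤ N₀ * d := Nat.mul_le_mul_right _ (hk2 d a2.1 a2.2)
                  have c2 : k d' * d' ≤ N₀ * d' := Nat.mul_le_mul_right _ (hk2 d' a4.1 a4.2)
                  have e : k d * d = k d' * d' := by
                    have := a1.2.trans a3.2.symm
                    omega
                  rw [← he] at e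
                  exact Nat.eq_of_mul_eq_mul_left
                    (lt_of_lt_of_le Nat.zero_lt_one (hk1 d a2.1 a2.2)) e
              rw [Nat.card_Icc] at h6
              simpa using h6)
          exact h5
        rw [Nat.card_Icc] at hcard
        have hq1 : 1 ≤ (z - x₀) / N₀ := (Nat.one_le_div_iff (by omega)).2 (by omega)
        have hq2 : z - x₀ < N₀ * ((z - x₀) / N₀) + N₀ := by
          have := Nat.lt_mul_div_succ (z - x₀) (show 0 < N₀ by omega)
          rw [Nat.mul_add, Nat.mul_one] at this
          exact this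
        have hq3 : N₀ * 1 ≤ N₀ * ((z - x₀) / N₀) := Nat.mul_le_mul_left _ hq1
        have hq4 : 4 * (N₀ * ((z - x₀) / N₀)) ≤
            4 * N₀ ^ 2 * (B.filter (fun i => x₀ ≤ i ∧ i ≤ z)).card := by
          calc 4 * (N₀ * ((z - x₀) / N₀)) ≤
              4 * (N₀ * (N₀ * (B.filter (fun i => x₀ ≤ i ∧ i ≤ z)).card)) := by
                apply Nat.mul_le_mul_left
                apply Nat.mul_le_mul_left
                simpa using hcard
            _ = _ := by ring
        omega

/-- **(G2)** The graph of scales: a pseudometric which is small on edges is small. -/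
theorem scales (n N₀ : ℕ) (hN : 1 ≤ N₀) (B : Finset ℕ) (D : ℕ → Prop) (h1 : D 1)
    (hD : ∀ A : Finset ℕ, (∀ a ∈ A, a < n) → N₀ < A.card → ∃ a ∈ A, ∃ b ∈ A, a < b ∧ D (b - a))
    (ρ : ℕ → ℕ → ℝ) (h : ℝ) (hh : 0 ≤ h) (h0 : ∀ i, ρ i i ≤ 0) (hs : ∀ i j, ρ i j = ρ j i)
    (ht : ∀ i j k, ρ i k ≤ ρ i j + ρ j k)
    (he : ∀ i j, i < j → j < n → i ∉ B → j ∉ B → D (j - i) → ρ i j ≤ h) :
    ∃ x₀ ≤ n, x₀ ≤ 4 * N₀ ^ 2 * B.card ∧
      ∀ i j, x₀ ≤ i → x₀ ≤ j → i < n → j < n → i ∉ B → j ∉ B → ρ i j ≤ 2 * N₀ * h := by
  classical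
  obtain ⟨x₀, hx1, hx2, hx3⟩ := exists_start n (4 * N₀ ^ 2) B
  refine ⟨x₀, hx1, hx2, ?_⟩
  intro i j hi hj hin hjn hiB hjB
  have r1 := reach n N₀ hN B D h1 hD x₀ hx3 i hi hin hiB
  have r2 := reach n N₀ hN B D h1 hD x₀ hx3 j hj hjn hjB
  have r3 : (gr n B D).Reachable i j := r1.symm.trans r2
  obtain ⟨p, hp⟩ := r3.exists_walk_length_eq_dist
  -- the pseudometric along a walk
  have hw : ∀ (a b : ℕ) (w : (gr n B D).Walk a b), ρ a b ≤ w.length * h := by
    intro a b w
    induction w with
    | nil => simpa using h0 _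
    | @cons u v w' hadj q ih =>
      have e1 : ρ u v ≤ h := by
        obtain ⟨g1, g2, g3, g4, g5, g6⟩ := hadj
        rcases lt_or_gt_of_ne g1 with hlt | hlt
        · refine he u v hlt g3 g4 g5 ?_
          have : u - v + (v - u) = v - u := by omega
          rwa [this] at g6
        · rw [hs]
          refine he v u hlt g2 g5 g4 ?_
          have : u - v + (v - u) = u - v := by omega
          rwa [this] at g6
      have e2 := ht u v w'
      rw [SimpleGraph.Walk.length_cons]
      push_cast
      linarith only [ih, e1, e2]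
  -- the length of the geodesic
  have hlen : p.length < 2 * N₀ := by
    by_contra hcon
    push Not at hcon
    have hdist : ∀ s t : ℕ, s ≤ t → t ≤ p.length →
        t - s ≤ (gr n B D).dist (p.getVert s) (p.getVert t) := by
      intro s t hst htl
      by_contra hlt
      push Not at hlt
      have q1 : (gr n B D).Reachable (p.getVert s) (p.getVert t) := by
        have a1 : (gr n B D).Reachable i (p.getVert s) := ⟨p.take s⟩
        have a2 : (gr n B D).Reachable i (p.getVert t) := ⟨p.take t⟩
        exact a1.symm.trans a2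
      obtain ⟨w, hw'⟩ := q1.exists_walk_length_eq_dist
      have b1 := SimpleGraph.dist_le (((p.take s).append w).append (p.drop t))
      rw [SimpleGraph.Walk.length_append, SimpleGraph.Walk.length_append,
        SimpleGraph.Walk.take_length, SimpleGraph.Walk.drop_length, hw', ← hp] at b1
      have : min s p.length = s := by omega
      omega
    have hgood : ∀ s, s ≤ p.length → 0 < p.length → p.getVert s < n ∧ p.getVert s ∉ B := by
      intro s hsl hpos
      rcases Nat.lt_or_ge s p.length with h' | h'
      · have := p.adj_getVert_succ h'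
        exact ⟨this.2.1, this.2.2.2.1⟩
      · have e : s = p.length := by omega
        subst e
        rw [SimpleGraph.Walk.getVert_length]
        exact ⟨hjn, hjB⟩
    have hpos : 0 < p.length := by omega
    have hinj : Set.InjOn (fun k => p.getVert (2 * k)) (range (N₀ + 1) : Finset ℕ) := by
      intro a ha b hb hab
      rw [mem_coe, mem_range] at ha hb
      rcases lt_trichotomy a b with h' | h' | h'
      · have := hdist (2 * a) (2 * b) (by omega) (by omega)
        have e : p.getVert (2 * a) = p.getVert (2 * b) := hab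
        rw [e, SimpleGraph.dist_self] at this
        omega
      · exact h'
      · have := hdist (2 * b) (2 * a) (by omega) (by omega)
        have e : p.getVert (2 * a) = p.getVert (2 * b) := hab
        rw [e, SimpleGraph.dist_self] at this
        omega
    obtain ⟨a, ha, b, hb, hab, hDab⟩ := hD ((range (N₀ + 1)).image (fun k => p.getVert (2 * k)))
      (by
        intro a ha
        obtain ⟨k, hk, rfl⟩ := mem_image.1 ha
        rw [mem_range] at hk
        exact (hgood (2 * k) (by omega) hpos).1)
      (by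
        rw [card_image_of_injOn hinj, card_range]
        omega)
    obtain ⟨k, hk, rfl⟩ := mem_image.1 ha
    obtain ⟨k', hk', rfl⟩ := mem_image.1 hb
    rw [mem_range] at hk hk'
    have g1 := hgood (2 * k) (by omega) hpos
    have g2 := hgood (2 * k') (by omega) hpos
    have hadj : (gr n B D).Adj (p.getVert (2 * k)) (p.getVert (2 * k')) := by
      refine ⟨by omega, g1.1, g2.1, g1.2, g2.2, ?_⟩
      have : p.getVert (2 * k) - p.getVert (2 * k') + (p.getVert (2 * k') - p.getVert (2 * k)) =
          p.getVert (2 * k') - p.getVert (2 * k) := by omega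
      rw [this]
      exact hDab
    have hd1 := SimpleGraph.dist_eq_one_iff_adj.2 hadj
    have hne : k ≠ k' := by
      rintro rfl
      omega
    rcases lt_or_gt_of_ne hne with h' | h'
    · have := hdist (2 * k) (2 * k') (by omega) (by omega)
      omega
    · have := hdist (2 * k') (2 * k) (by omega) (by omega)
      rw [SimpleGraph.dist_comm] at this
      omega
  refine (hw i j p).trans ?_
  have : (p.length : ℝ) ≤ 2 * N₀ := by exact_mod_cast hlen.le
  exact mul_le_mul_of_nonneg_right this hh

end Pool.OC
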